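import Pool.Agent.Helper20.FS.C5

/-!
# Injective coresolutions and bounded elements of commutative Fréchet algebras

For a separable commutative unital Fréchet algebra `A` whose topology is given by
submultiplicative seminorms consider: (1) every Fréchet `A`-module has an injective
coresolution; (2) each module of sequences tending to zero with a diagonal action given by
characters has one; (3) the bounded elements are dense; (4) for each continuous seminorm `p`
there is a bounded `a` with `p (1 - a) = 0`. Then (4) implies (1), (1) implies (2), (2) implies
(3), and (3) implies (4) if the topology is given by an increasing sequence of submultiplicative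
seminorms for which `A` is complete.
-/

open Topology

namespace Pool.Agent.Results.MP_8296bc_an.BoundedElements

open Pool.Agent.Helper20.FA Pool.Agent.Helper20.FR Pool.Agent.Helper20.FS

theorem result :
    ∀ (A : Type) [CommRing A] [Algebra ℂ A] [TopologicalSpace A] [IsFrechet A]
      [ContinuousMul A] [TopologicalSpace.SeparableSpace A],
      SubAlg A →
      ((∀ p : Seminorm ℂ A, Continuous p → ∃ a : A, Bdd a ∧ p (1 - a) = 0) →
        ∀ M : FMod A, HasCores M) ∧
      ((∀ M : FMod A, HasCores M) → ∀ M : FMod A, IsDiag M → HasCores M) ∧
      ((∀ M : FMod A, IsDiag M → HasCores M) → Dense {a : A | Bdd a}) ∧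
      (StrictAlg A → Dense {a : A | Bdd a} →
        ∀ p : Seminorm ℂ A, Continuous p → ∃ a : A, Bdd a ∧ p (1 - a) = 0) :=
  fun _ _ _ _ _ _ _ hA => ⟨cores_of_units, fun h M _ => h M, dense_final hA,
    fun hS => ((strict_tfae hS).out 2 3).1⟩

end Pool.Agent.Results.MP_8296bc_an.BoundedElements
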