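import Pool.Agent.Helper20.FJ.N2

/-!
# Injective coresolutions over locally normable Fréchet algebras

Let `A` be a Fréchet algebra with unitization `A_+ = ℂ × A` and let `a 0, a 1, ...` in `A_+`
satisfy `a (n + 1) a n = a n`. Suppose that each neighbourhood of zero in `A_+` contains all but
finitely many of the right ideals `(1 - a n) A_+` and that the right ideals `a n A_+` are
normable. Then every Fréchet `A`-module has an injective coresolution.
-/

open Topology

namespace Pool.Agent.Results.MP_8296bc_an.LocallyNormable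

open Pool.Agent.Helper20.FA

universe u

theorem result :
    ∀ (A : Type u) [NonUnitalRing A] [Module ℂ A] [IsScalarTower ℂ A A] [SMulCommClass ℂ A A]
      [TopologicalSpace A] [IsFrechet A] [ContinuousMul A] (a : ℕ → ℂ × A),
      (∀ n, mulP (a (n + 1)) (a n) = a n) →
      (∀ U ∈ 𝓝 (0 : ℂ × A), ∃ n : ℕ, ∀ i, n ≤ i → ∀ z, mulP ((1, 0) - a i) z ∈ U) →
      (∀ n, Normable (rIdeal (a n))) →
      ∀ M : FMod A, HasCores M :=
  fun _ _ _ _ _ _ _ _ _ h1 h2 h3 M => LUnit.hasCores ⟨h1, h2, h3⟩ M

end Pool.Agent.Results.MP_8296bc_an.LocallyNormable
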