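import Pool.Agent.Helper20.FR.C2

/-!
# Injective coresolutions over radical Fréchet algebras

Let `A` be a separable Fréchet algebra whose topology is given by submultiplicative seminorms
with radical completions. Equivalent: every Fréchet `A`-module has an injective coresolution;
some Fréchet `A`-module with an injective coresolution contains a complemented copy of `c0` that
is killed by `A`; `A` is normable.
-/

open Topology

namespace Pool.Agent.Results.MP_8296bc_an.RadicalAlgebras

open Pool.Agent.Helper20.FA Pool.Agent.Helper20.FR

theorem result :
    ∀ (A : Type) [NonUnitalRing A] [Module ℂ A] [IsScalarTower ℂ A A] [SMulCommClass ℂ A A]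
      [TopologicalSpace A] [IsFrechet A] [ContinuousMul A] [TopologicalSpace.SeparableSpace A],
      RadAlg A →
      List.TFAE [∀ M : FMod A, HasCores M, ∃ M : FMod A, HasC0 M ∧ HasCores M, Normable A] :=
  fun _ _ _ _ _ _ _ _ _ hA => radical_tfae hA

end Pool.Agent.Results.MP_8296bc_an.RadicalAlgebras
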