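import Pool.Agent.Helper20.FG.Nec2

/-!
# Injective coresolutions over Fréchet algebras with a pro-nilpotent ideal

The unitization `A_+ = ℂ × A` of a Fréchet algebra `A` is the product of right ideals `f i A_+`,
where the `f i` are idempotents, and `R` is a two-sided ideal of `A` whose powers tend to zero,
such that each `f i A_+ ∩ R` has a normable topological complement in `f i A_+`. Then all
Fréchet modules over `A` have injective coresolutions exactly when all the right ideals
`f i A_+` are normable.
-/

open Topology

namespace Pool.Agent.Results.MP_8296bc_an.RadicalCriterion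

open Pool.Agent.Helper20.FA

universe u

theorem result :
    ∀ (A : Type u) [NonUnitalRing A] [Module ℂ A] [IsScalarTower ℂ A A] [SMulCommClass ℂ A A]
      [TopologicalSpace A] [IsFrechet A] [ContinuousMul A] (f : ℕ → ℂ × A) (R : Submodule ℂ A),
      Fam f → ProNilIdeal R → (∀ i, NormableMod R (f i)) →
      ((∀ X : FMod A, HasCores X) ↔ ∀ i, Normable (fixP (f i))) :=
  fun _ _ _ _ _ _ _ _ _ _ hf hR hn => main_mod hf hR hn

end Pool.Agent.Results.MP_8296bc_an.RadicalCriterion
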